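import Mathlib
import Pool.Agent.W738.CP.Final

open MeasureTheory Set
open Pool.Agent.W738.CP

namespace Pool.Agent.Results.MP_58debc_an.DiscArcs

/-- Non-uniqueness in the partial data Calderon problem for the unit disc with Dirichlet and
Neumann data on disjoint arcs of its (connected) boundary: for `0 < c < 1` the bounded potentials
`pot c z` and `pot c (-z)` differ on a set of positive measure but have the same Cauchy data set
for `ΓD` in the left arc `{re z < -c}` and `ΓN` in the right arc `{re z > c}`. -/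
theorem result (c : ℝ) (h0 : 0 < c) (h1 : c < 1) :
    Measurable (pot c) ∧ (∀ z, |pot c z| ≤ 4 * (1 + c) / (1 - c)) ∧
    ¬ (pot c =ᵐ[volume.restrict (Metric.ball (0 : ℂ) 1)] fun z => pot c (-z)) ∧
    ∀ ΓD ΓN : Set ℂ, ΓD ⊆ {z | ‖z‖ = 1 ∧ z.re < -c} → ΓN ⊆ {z | ‖z‖ = 1 ∧ c < z.re} →
      CauchyData (pot c) ΓD ΓN = CauchyData (fun z => pot c (-z)) ΓD ΓN :=
  ⟨pot_meas c, pot_bdd h0 h1, pot_ne h0 h1, fun _ _ hD hN => main h0 h1 hD hN⟩

end Pool.Agent.Results.MP_58debc_an.DiscArcs
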